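import Mathlib

set_option autoImplicit false

namespace Pool.Agent.Results.MP_16faa7_an.Convex

open Set Real

/-- the set `S_α` -/
def S (γ α : ℝ) : Set ℝ :=
  {β | 0 < β ∧ ∀ z ∈ Ioo (0 : ℝ) 1, γ * z ^ (β - α) * (1 - z ^ α) ≤ 1 - z}

lemma ne (γ α : ℝ) (hγ : 1 < γ) (h : α ∈ Ioo 0 (1 / γ)) : (S γ α).Nonempty := by
  refine ⟨α + 1, by linarith [h.1], fun z hz => ?_⟩
  have h1 : α * γ ≤ 1 := ((lt_div_iff₀ (by linarith)).1 h.2).le
  have h2 : 1 + log z * α ≤ z ^ α := by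
    rw [rpow_def_of_pos hz.1]; linarith [add_one_le_exp (log z * α)]
  have h3 := one_sub_inv_le_log_of_pos hz.1
  have h4 : z * (1 - z⁻¹) = z - 1 := by rw [mul_sub, mul_inv_cancel₀ hz.1.ne', mul_one]
  have h5 : z - 1 ≤ z * log z := h4 ▸ mul_le_mul_of_nonneg_left h3 hz.1.le
  have h6 : z * (1 - z ^ α) ≤ α * (1 - z) := by
    nlinarith [mul_le_mul_of_nonneg_left h2 hz.1.le, mul_le_mul_of_nonneg_left h5 h.1.le]
  rw [add_sub_cancel_left, rpow_one, mul_assoc]
  nlinarith [mul_le_mul_of_nonneg_left h6 (by linarith : 0 ≤ γ), hz.2]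

lemma comb (γ x y a b p q : ℝ) (hγ : 1 < γ) (hx : 0 < x) (hy : 0 < y) (ha : 0 < a) (hb : 0 < b)
    (hab : a + b = 1) (hp : p ∈ S γ x) (hq : q ∈ S γ y) : a * p + b * q ∈ S γ (a * x + b * y) := by
  refine ⟨by have := hp.1; have := hq.1; positivity, fun z hz => ?_⟩
  set α := a * x + b * y with hα
  have h0 : 0 < α := by positivity
  have z0 := hz.1
  have m : ∀ t, 0 < t → z ^ (α / t) ∈ Ioo (0 : ℝ) 1 := fun t ht =>
    ⟨by positivity, rpow_lt_one z0.le hz.2 (by positivity)⟩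
  have h1 := hp.2 _ (m x hx)
  have h2 := hq.2 _ (m y hy)
  rw [← rpow_mul z0.le, ← rpow_mul z0.le, div_mul_cancel₀ _ (by positivity)] at h1 h2
  have hw : 0 ≤ 1 - z ^ α := sub_nonneg.2 (rpow_le_one z0.le hz.2.le h0.le)
  have l1 : 0 ≤ a * x / α := by positivity
  have l2 : 0 ≤ b * y / α := by positivity
  have l3 : a * x / α + b * y / α = 1 := by rw [← add_div, div_self h0.ne']
  have g1 := geom_mean_le_arith_mean2_weighted l1 l2 (m x hx).1.le (m y hy).1.le l3
  have g2 := geom_mean_le_arith_mean2_weighted l1 l2 (sub_nonneg.2 (m x hx).2.le)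
    (sub_nonneg.2 (m y hy).2.le) l3
  have e1 : (z ^ (α / x)) ^ (a * x / α) * (z ^ (α / y)) ^ (b * y / α) = z := by
    rw [← rpow_mul z0.le, ← rpow_mul z0.le, ← rpow_add z0,
      show α / x * (a * x / α) + α / y * (b * y / α) = a + b by field_simp, hab, rpow_one]
  have g3 := mul_le_mul (rpow_le_rpow (by positivity) h1 l1) (rpow_le_rpow (by positivity) h2 l2)
    (by positivity) (rpow_nonneg (sub_nonneg.2 (m x hx).2.le) _)
  have e2 : (γ * z ^ (α / x * (p - x)) * (1 - z ^ α)) ^ (a * x / α)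
      * (γ * z ^ (α / y * (q - y)) * (1 - z ^ α)) ^ (b * y / α)
      = γ * z ^ (a * p + b * q - α) * (1 - z ^ α) := by
    rw [mul_right_comm γ (z ^ (α / x * _)), mul_right_comm γ (z ^ (α / y * _)),
      mul_right_comm γ (z ^ (a * p + _ - _)),
      mul_rpow (by positivity) (by positivity), mul_rpow (x := γ * _) (by positivity) (by positivity),
      mul_mul_mul_comm, ← rpow_add' (by positivity) (by rw [l3]; norm_num), l3, rpow_one,
      ← rpow_mul z0.le, ← rpow_mul z0.le, ← rpow_add z0]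
    congr 2
    field_simp
    ring
  rw [e1] at g1
  rw [e2] at g3
  have e3 : a * x / α * (1 - z ^ (α / x)) + b * y / α * (1 - z ^ (α / y))
      = 1 - (a * x / α * z ^ (α / x) + b * y / α * z ^ (α / y)) := by linear_combination l3
  linarith

theorem result (γ : ℝ) (hγ : 1 < γ) :
    ConvexOn ℝ (Ioo 0 (1 / γ)) (fun α => sInf (S γ α)) := by
  refine convexOn_iff_forall_pos.2 ⟨convex_Ioo _ _, fun x hx y hy a b ha hb hab => ?_⟩
  simp only [smul_eq_mul]
  have hbd : BddBelow (S γ (a * x + b * y)) := ⟨0, fun _ h => h.1.le⟩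
  have h1 : ∀ q ∈ S γ y, (sInf (S γ (a * x + b * y)) - b * q) / a ≤ sInf (S γ x) := fun q hq =>
    le_csInf (ne γ x hγ hx) fun p hp => by
      rw [div_le_iff₀ ha]
      linarith [csInf_le hbd (comb γ x y a b p q hγ hx.1 hy.1 ha hb hab hp hq)]
  have h2 : (sInf (S γ (a * x + b * y)) - a * sInf (S γ x)) / b ≤ sInf (S γ y) :=
    le_csInf (ne γ y hγ hy) fun q hq => by
      have := h1 q hq
      rw [div_le_iff₀ ha] at this
      rw [div_le_iff₀ hb]
      linarith
  rw [div_le_iff₀ hb] at h2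
  linarith

end Pool.Agent.Results.MP_16faa7_an.Convex
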